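import Mathlib
import Pool.Agent.Lib.MP_7df21e_lc.Main

set_option autoImplicit false

namespace Pool.Agent.Results.MP_7df21e_lc.TailNotHypersmooth

open Pool.Agent.Lib.MP7df21e

/-- `R` is smooth: `R x y` iff `f x = f y` for a Borel map `f` to a standard Borel space. -/
def Smooth {X : Type} [MeasurableSpace X] (R : X → X → Prop) : Prop :=
  ∃ (Y : Type) (_ : MeasurableSpace Y) (_ : StandardBorelSpace Y) (f : X → Y),
    Measurable f ∧ ∀ x y, R x y ↔ f x = f y

/-- `R` is hypersmooth: the union of an increasing sequence of smooth relations. -/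
def Hypersmooth {X : Type} [MeasurableSpace X] (R : X → X → Prop) : Prop :=
  ∃ F : ℕ → X → X → Prop, (∀ n, Smooth (F n)) ∧ (∀ n x y, F n x y → F (n + 1) x y) ∧
    ∀ x y, R x y ↔ ∃ n, F n x y

/-- The relation `E_0(E,T)`: some equal iterates are `E`-related. -/
def EZero {X : Type} (E : X → X → Prop) (T : X → X) (x y : X) : Prop :=
  ∃ n : ℕ, E (T^[n] x) (T^[n] y)

/-- The relation `E_t(E,T)`: some iterates are `E`-related. -/
def ETail {X : Type} (E : X → X → Prop) (T : X → X) (x y : X) : Prop :=
  ∃ m n : ℕ, E (T^[n] x) (T^[m] y)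

/-- Eventual equality of rows, the relation `E_1` on sequences of points of Baire space. -/
def EOne (x y : ℕ → ℕ → ℕ) : Prop := ∃ r : ℕ, ∀ i, r ≤ i → x i = y i

/-- Shift every row by one place. -/
def rowShift (x : ℕ → ℕ → ℕ) : ℕ → ℕ → ℕ := fun i j => x i (j + 1)

lemma iter_shift (n : ℕ) : ∀ (a : ℕ → ℕ → ℕ) (i j : ℕ), rowShift^[n] a i j = a i (j + n) := by
  induction n with
  | zero => intro a i j; rfl
  | succ n ih =>
    intro a i j
    rw [Function.iterate_succ_apply, ih]
    change a i (j + n + 1) = a i (j + (n + 1))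
    rw [Nat.add_assoc]

/-- The answer to Q1 is negative: eventual equality of rows `E_1` is a Borel hypersmooth
equivalence relation, the shift of all rows is a continuous surjective homomorphism of `E_1`,
the relation `E_0(E_1,T)` is hypersmooth and the relation `E_t(E_1,T)` is not. -/
theorem result :
    MeasurableSet {p : (ℕ → ℕ → ℕ) × (ℕ → ℕ → ℕ) | EOne p.1 p.2} ∧
    Equivalence EOne ∧
    Hypersmooth EOne ∧
    Continuous rowShift ∧ Measurable rowShift ∧ Function.Surjective rowShift ∧
    (∀ x y, EOne x y → EOne (rowShift x) (rowShift y)) ∧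
    Equivalence (EZero EOne rowShift) ∧ Hypersmooth (EZero EOne rowShift) ∧
    Equivalence (ETail EOne rowShift) ∧ ¬ Hypersmooth (ETail EOne rowShift) := by
  have hET : ∀ a a' : ℕ → ℕ → ℕ, ETail EOne rowShift a a' ↔ RR a a' := by
    intro a a'
    constructor
    · rintro ⟨m, n, r, h⟩
      refine ⟨m, n, r, fun i hi j => ?_⟩
      rw [← iter_shift n a i j, ← iter_shift m a' i j, h i hi]
    · rintro ⟨m, n, r, h⟩
      refine ⟨m, n, r, fun i hi => ?_⟩
      funext j
      rw [iter_shift, iter_shift]
      exact h i hi j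
  have hE0 : ∀ a a' : ℕ → ℕ → ℕ, EZero EOne rowShift a a' ↔
      ∃ n r : ℕ, ∀ i, r ≤ i → ∀ j, a i (j + n) = a' i (j + n) := by
    intro a a'
    constructor
    · rintro ⟨n, r, h⟩
      refine ⟨n, r, fun i hi j => ?_⟩
      rw [← iter_shift n a i j, ← iter_shift n a' i j, h i hi]
    · rintro ⟨n, r, h⟩
      refine ⟨n, r, fun i hi => ?_⟩
      funext j
      rw [iter_shift, iter_shift]
      exact h i hi j
  refine ⟨?_, ?_, ?_, ?_, ?_, ?_, ?_, ?_, ?_, ?_, ?_⟩
  · have : {p : (ℕ → ℕ → ℕ) × (ℕ → ℕ → ℕ) | EOne p.1 p.2} =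
        ⋃ r : ℕ, ⋂ i : ℕ, ⋂ _ : r ≤ i, {p : (ℕ → ℕ → ℕ) × (ℕ → ℕ → ℕ) | p.1 i = p.2 i} := by
      ext p
      simp only [Set.mem_iUnion, Set.mem_iInter]
      rfl
    rw [this]
    refine MeasurableSet.iUnion fun r => MeasurableSet.iInter fun i =>
      MeasurableSet.iInter fun _ => ?_
    exact measurableSet_eq_fun ((measurable_pi_apply i).comp measurable_fst)
      ((measurable_pi_apply i).comp measurable_snd)
  · refine ⟨fun x => ⟨0, fun i _ => rfl⟩, ?_, ?_⟩
    · rintro x y ⟨r, hr⟩
      exact ⟨r, fun i hi => (hr i hi).symm⟩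
    · rintro x y z ⟨r, hr⟩ ⟨r', hr'⟩
      exact ⟨max r r', fun i hi => (hr i ((le_max_left _ _).trans hi)).trans
        (hr' i ((le_max_right _ _).trans hi))⟩
  · refine ⟨fun n x y => ∀ i, n ≤ i → x i = y i, ?_, ?_, ?_⟩
    · intro n
      refine ⟨ℕ → ℕ → ℕ, inferInstance, inferInstance, fun a i => a (n + i), ?_, ?_⟩
      · rw [measurable_pi_iff]
        intro i
        exact measurable_pi_apply (n + i)
      · intro x y
        constructor
        · intro h
          funext i
          exact h (n + i) (by omega)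
        · intro h i hi
          have h1 := congrFun h (i - n)
          change x (n + (i - n)) = y (n + (i - n)) at h1
          have h2 : n + (i - n) = i := by omega
          rw [h2] at h1
          exact h1
    · intro n x y h i hi
      exact h i (by omega)
    · intro x y
      exact Iff.rfl
  · refine continuous_pi fun i => continuous_pi fun j => ?_
    exact (continuous_apply (j + 1)).comp (continuous_apply i)
  · rw [measurable_pi_iff]
    intro i
    rw [measurable_pi_iff]
    intro j
    exact (measurable_pi_apply (j + 1)).comp (measurable_pi_apply i)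
  · intro b
    exact ⟨fun i j => b i (j - 1), rfl⟩
  · rintro x y ⟨r, hr⟩
    refine ⟨r, fun i hi => ?_⟩
    funext j
    change x i (j + 1) = y i (j + 1)
    rw [hr i hi]
  · refine ⟨fun x => (hE0 _ _).mpr ⟨0, 0, fun i _ j => rfl⟩, ?_, ?_⟩
    · intro x y h
      obtain ⟨n, r, h⟩ := (hE0 _ _).mp h
      exact (hE0 _ _).mpr ⟨n, r, fun i hi j => (h i hi j).symm⟩
    · intro x y z h h'
      obtain ⟨n, r, h⟩ := (hE0 _ _).mp h
      obtain ⟨n', r', h'⟩ := (hE0 _ _).mp h'
      refine (hE0 _ _).mpr ⟨n + n', max r r', fun i hi j => ?_⟩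
      have h1 := h i ((le_max_left _ _).trans hi) (j + n')
      have h2 := h' i ((le_max_right _ _).trans hi) (j + n)
      have e1 : j + n' + n = j + (n + n') := by omega
      have e2 : j + n + n' = j + (n + n') := by omega
      rw [e1] at h1
      rw [e2] at h2
      exact h1.trans h2
  · refine ⟨fun n x y => ∀ i, n ≤ i → ∀ j, x i (j + n) = y i (j + n), ?_, ?_, ?_⟩
    · intro n
      refine ⟨ℕ → ℕ → ℕ, inferInstance, inferInstance, fun a i j => a (n + i) (j + n), ?_, ?_⟩
      · rw [measurable_pi_iff]
        intro i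
        rw [measurable_pi_iff]
        intro j
        exact (measurable_pi_apply (j + n)).comp (measurable_pi_apply (n + i))
      · intro x y
        constructor
        · intro h
          funext i j
          exact h (n + i) (by omega) j
        · intro h i hi j
          have h1 := congrFun (congrFun h (i - n)) j
          change x (n + (i - n)) (j + n) = y (n + (i - n)) (j + n) at h1
          have h2 : n + (i - n) = i := by omega
          rw [h2] at h1
          exact h1
    · intro n x y h i hi j
      have h1 := h i (by omega) (j + 1)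
      have e1 : j + 1 + n = j + (n + 1) := by omega
      rw [e1] at h1
      exact h1
    · intro x y
      rw [hE0]
      constructor
      · rintro ⟨n, r, h⟩
        refine ⟨max n r, fun i hi j => ?_⟩
        have h1 := h i ((le_max_right _ _).trans hi) (j + (max n r - n))
        have h2 := le_max_left n r
        have e1 : j + (max n r - n) + n = j + max n r := by omega
        rw [e1] at h1
        exact h1
      · rintro ⟨n, h⟩
        exact ⟨n, n, h⟩
  · refine ⟨fun x => (hET _ _).mpr ⟨0, 0, 0, fun i _ j => rfl⟩, ?_, ?_⟩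
    · intro x y h
      obtain ⟨m, n, r, h⟩ := (hET _ _).mp h
      exact (hET _ _).mpr ⟨n, m, r, fun i hi j => (h i hi j).symm⟩
    · intro x y z h h'
      obtain ⟨m, n, r, h⟩ := (hET _ _).mp h
      obtain ⟨m', n', r', h'⟩ := (hET _ _).mp h'
      refine (hET _ _).mpr ⟨m + m', n + n', max r r', fun i hi j => ?_⟩
      have h1 := h i ((le_max_left _ _).trans hi) (j + n')
      have h2 := h' i ((le_max_right _ _).trans hi) (j + m)
      have e1 : j + n' + n = j + (n + n') := by omega
      have e2 : j + m + n' = j + n' + m := by omega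
      have e3 : j + m + m' = j + (m + m') := by omega
      rw [e1] at h1
      rw [e2, e3] at h2
      exact h1.trans h2
  · rintro ⟨F, hF, hmono, hR⟩
    have hcode : ∀ n, ∃ g : XX → (ℕ → Bool), Measurable g ∧ ∀ x y, F n x y ↔ g x = g y := by
      intro n
      obtain ⟨Y, iY, iS, f, hfm, hf⟩ := hF n
      obtain ⟨g, hgm, hgi⟩ :=
        MeasurableSpace.measurable_injection_nat_bool_of_countablySeparated Y
      exact ⟨g ∘ f, hgm.comp hfm, fun x y => (hf x y).trans (hgi.eq_iff).symm⟩
    choose f hfm hf using hcode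
    refine no_wit f ⟨hfm, ?_, ?_⟩
    · intro n a a' h
      rw [← hf] at h ⊢
      exact hmono n a a' h
    · intro a a'
      rw [← hET, hR]
      exact exists_congr fun n => hf n a a'

end Pool.Agent.Results.MP_7df21e_lc.TailNotHypersmooth
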